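import Pool.Agent.H780.R2.Stm
import Pool.Graph.R_pool_sql_team_seeded_63374d34.N595.CP_ABS2

/-!
# RG/ABSE: the case of equality in the abstract comass inequality (helper230), after CPN2/ABS2
-/

set_option autoImplicit false

open MeasureTheory

namespace Pool.Agent.H780.R2.ABSE

open Pool.Agent.H241R3.FV Pool.Agent.N526.CP Pool.Agent.N979.CP Pool.Agent.N526.CP.ABS
open Pool.Agent.N595.CP_ABS2 (exists_basis om om_mul om_orth om_det norm_sq_basis inner_basis)

theorem main (hKEQ : S_KEQs) : S_ABSEs := by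
  intro d hd Ω _ μ _ ν p a mν mp ma ⟨C, hC⟩ ha hνν hpν e pr pt he hpr hpt hsum1 hpp hEq hne
  have hd0 : (1 : ℝ) ≤ d := by exact_mod_cast hd.ge
  have hn0 : (0 : ℝ) < d + 1 := by positivity
  obtain ⟨b, hb⟩ := exists_basis e he
  -- the weights
  set w : Fin (d + 1) → ℝ := fun i => if i = 0 then pr else pt with hw
  have hw0 : ∀ i, 0 < w i := by
    intro i
    simp only [hw]
    split_ifs <;> assumption
  have hwsum : ∑ i, w i < 1 := by
    rw [Fin.sum_univ_succ]
    simp only [hw, if_true, Fin.succ_ne_zero, if_false, Finset.sum_const, Finset.card_univ,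
      Fintype.card_fin, nsmul_eq_mul]
    exact hsum1
  have hw1 : ∀ i, w i < 1 := by
    intro i
    simp only [hw]
    split_ifs
    · nlinarith
    · nlinarith
  set B : Matrix (Fin (d + 1)) (Fin (d + 1)) ℝ := (d + 1 : ℝ) • Mx μ ν a with hB
  set K : Matrix (Fin (d + 1)) (Fin (d + 1)) ℝ := Mx μ p a with hK
  set D : Matrix (Fin (d + 1)) (Fin (d + 1)) ℝ := K - B with hD
  have hBD : B + D = K := by rw [hD]; abel
  -- bounded functions
  have bdν : ∀ v : E (d + 1), Bd μ (fun ω => inner ℝ (ν ω) v) := fun v =>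
    ⟨mν.inner_const, C * ‖v‖, Filter.Eventually.of_forall fun ω =>
      (abs_real_inner_le_norm _ _).trans (mul_le_mul_of_nonneg_right (hC ω).1 (norm_nonneg _))⟩
  have bdp : ∀ v : E (d + 1), Bd μ (fun ω => inner ℝ (p ω) v) := fun v =>
    ⟨mp.inner_const, C * ‖v‖, Filter.Eventually.of_forall fun ω =>
      (abs_real_inner_le_norm _ _).trans (mul_le_mul_of_nonneg_right (hC ω).2 (norm_nonneg _))⟩
  have bda : ∀ j : Fin (d + 1), Bd μ (fun ω => a ω j) := fun j => by
    refine ⟨by fun_prop, 1, ?_⟩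
    filter_upwards [ha] with ω h
    exact (PiLp.norm_apply_le (a ω) j).trans h
  -- the integrals with `a`
  have lin : ∀ (q : Ω → E (d + 1)), Measurable q → (∀ v, Bd μ (fun ω => inner ℝ (q ω) v)) →
      ∀ (v : E (d + 1)) (j : Fin (d + 1)),
      ∫ ω, a ω j * inner ℝ (q ω) v ∂μ = inner ℝ (col (Mx μ q a) j) v := by
    intro q mq bq v j
    have bqi : ∀ i, Bd μ (fun ω => q ω i) := by
      intro i
      have := bq (EuclideanSpace.single i 1)
      simpa [EuclideanSpace.inner_single_right] using this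
    have e1 : (fun ω => a ω j * inner ℝ (q ω) v) =
        fun ω => ∑ i, v i * (q ω i * a ω j) := by
      funext ω
      rw [PiLp.inner_apply, Finset.mul_sum]
      refine Finset.sum_congr rfl fun i _ => ?_
      simp
      ring
    rw [e1, integral_finsetSum, real_inner_comm, inner_col]
    · refine Finset.sum_congr rfl fun i _ => ?_
      rw [integral_const_mul]
      rfl
    · intro i _
      exact (((bqi i).mul (bda j)).integrable).const_mul _
  have linB : ∀ (v : E (d + 1)) (j : Fin (d + 1)),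
      ∫ ω, a ω j * inner ℝ (ν ω) v ∂μ = inner ℝ (col B j) v / (d + 1) := by
    intro v j
    rw [lin ν mν bdν v j, real_inner_comm, inner_col, real_inner_comm, inner_col, Finset.sum_div]
    refine Finset.sum_congr rfl fun i _ => ?_
    simp only [hB, Matrix.smul_apply, smul_eq_mul]
    field_simp
  have hcolD : ∀ (v : E (d + 1)) (j : Fin (d + 1)),
      inner ℝ (col K j) v = inner ℝ (col B j) v + inner ℝ (col D j) v := by
    intro v j
    rw [real_inner_comm, inner_col, real_inner_comm, inner_col, real_inner_comm, inner_col,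
      ← Finset.sum_add_distrib]
    refine Finset.sum_congr rfl fun i _ => ?_
    rw [← hBD, Matrix.add_apply]
    ring
  -- the squares
  have key : ∀ j, ∑ i, (inner ℝ (b i) (col B j) ^ 2 +
      (1 - w i) / w i * inner ℝ (b i) (col D j) ^ 2) ≤ (d + 1) * ∫ ω, a ω j * a ω j ∂μ := by
    intro j
    set κ : Fin (d + 1) → ℝ := fun i => (1 - w i) / ((d + 1) * w i) with hκ
    set y : E (d + 1) := ∑ i, (κ i * inner ℝ (b i) (col D j)) • b i with hy
    have hby : ∀ i, inner ℝ (b i) y = κ i * inner ℝ (b i) (col D j) := by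
      intro i
      rw [hy, inner_sum, Finset.sum_eq_single i]
      · rw [inner_smul_right, real_inner_self_eq_norm_sq, b.norm_eq_one, one_pow, mul_one]
      · intro k _ hk
        rw [inner_smul_right, b.inner_eq_zero (Ne.symm hk), mul_zero]
      · intro hk
        exact absurd (Finset.mem_univ i) hk
    have h0 : 0 ≤ ∫ ω, (a ω j + (-1) * inner ℝ (ν ω) (col B j) +
        (-1) * inner ℝ (p ω) y + (d + 1 : ℝ) * inner ℝ (ν ω) y) ^ 2 ∂μ :=
      integral_nonneg fun ω => sq_nonneg _
    rw [sq4 (bda j) (bdν _) (bdp _) (bdν _)] at h0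
    have e6 : ∫ ω, inner ℝ (p ω) y * inner ℝ (p ω) y ∂μ ≤
        (d + 1) / (1 - pt) * (‖y‖ ^ 2 - inner ℝ e y ^ 2) + (d + 1) / (1 - pr) * inner ℝ e y ^ 2 := by
      have h := hpp y
      simpa only [sq] using h
    have e7 : ∫ ω, inner ℝ (ν ω) (col B j) * inner ℝ (p ω) y ∂μ = inner ℝ y (col B j) := by
      rw [← hpν]
      congr 1
      funext ω
      ring
    rw [linB, lin p mp bdp, linB, hνν, hνν, hνν, hpν, e7, hcolD] at h0
    have hyy : (inner ℝ y y : ℝ) = ‖y‖ ^ 2 := real_inner_self_eq_norm_sq y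
    have hBB : (inner ℝ (col B j) (col B j) : ℝ) = ∑ i, inner ℝ (b i) (col B j) ^ 2 := by
      rw [real_inner_self_eq_norm_sq, norm_sq_basis b]
    have hny : ‖y‖ ^ 2 = ∑ i, (κ i * inner ℝ (b i) (col D j)) ^ 2 := by
      rw [norm_sq_basis b]
      exact Finset.sum_congr rfl fun i _ => by rw [hby]
    have hDy : (inner ℝ (col D j) y : ℝ) = ∑ i, κ i * inner ℝ (b i) (col D j) ^ 2 := by
      rw [inner_basis b]
      refine Finset.sum_congr rfl fun i _ => ?_
      rw [hby]
      ring
    have hP : (d + 1) / (1 - pt) * (‖y‖ ^ 2 - inner ℝ e y ^ 2) + (d + 1) / (1 - pr) * inner ℝ e y ^ 2 =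
        ∑ i, (d + 1) / (1 - w i) * (κ i * inner ℝ (b i) (col D j)) ^ 2 := by
      rw [hny, ← hb, hby, Fin.sum_univ_succ, Fin.sum_univ_succ]
      simp only [hw, if_true, Fin.succ_ne_zero, if_false]
      rw [← Finset.mul_sum]
      ring
    rw [hP] at e6
    have hQ : ∑ i, (d + 1) / (1 - w i) * (κ i * inner ℝ (b i) (col D j)) ^ 2 -
        (d + 1) * ∑ i, (κ i * inner ℝ (b i) (col D j)) ^ 2 =
        ∑ i, κ i * inner ℝ (b i) (col D j) ^ 2 := by
      rw [Finset.mul_sum, ← Finset.sum_sub_distrib]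
      refine Finset.sum_congr rfl fun i _ => ?_
      have h1 := hw0 i
      have h2 : 0 < 1 - w i := by linarith [hw1 i]
      simp only [hκ]
      field_simp
      ring
    have hfin : ∑ i, (inner ℝ (b i) (col B j) ^ 2 +
        (1 - w i) / w i * inner ℝ (b i) (col D j) ^ 2) =
        ∑ i, inner ℝ (b i) (col B j) ^ 2 +
          (d + 1) * ∑ i, κ i * inner ℝ (b i) (col D j) ^ 2 := by
      rw [Finset.sum_add_distrib, Finset.mul_sum]
      congr 1
      refine Finset.sum_congr rfl fun i _ => ?_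
      have h1 := hw0 i
      simp only [hκ]
      field_simp
    rw [hfin]
    rw [hyy, hBB, real_inner_comm (col B j) y, hDy, hny] at h0
    rw [hny] at hyy
    set b2 := ∑ i, (inner ℝ (b i) (col B j) : ℝ) ^ 2
    set k2 := ∑ i, κ i * (inner ℝ (b i) (col D j) : ℝ) ^ 2
    set y2 := ∑ i, (κ i * (inner ℝ (b i) (col D j) : ℝ)) ^ 2
    set P2 := ∑ i, (d + 1) / (1 - w i) * (κ i * (inner ℝ (b i) (col D j) : ℝ)) ^ 2
    set A2 := ∫ ω, a ω j * a ω j ∂μ
    set Q2 := ∫ ω, (inner ℝ (p ω) y : ℝ) * inner ℝ (p ω) y ∂μ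
    set By := (inner ℝ (col B j) y : ℝ)
    have h1 : 0 ≤ A2 - b2 / (d + 1) - k2 := by
      have e : A2 + (-1) ^ 2 * (b2 / (d + 1)) + (-1) ^ 2 * Q2 + (d + 1) ^ 2 * (y2 / (d + 1)) +
          2 * (-1) * (b2 / (d + 1)) + 2 * (-1) * (By + k2) + 2 * (d + 1) * (By / (d + 1)) +
          2 * (-1) * (-1) * By + 2 * (-1) * (d + 1) * (By / (d + 1)) +
          2 * (-1) * (d + 1) * y2 = A2 - b2 / (d + 1) + Q2 - (d + 1) * y2 - 2 * k2 := by
        field_simp
        ring
      have h0' := h0
      linarith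
    have h2 : 0 ≤ (d + 1 : ℝ) * (A2 - b2 / (d + 1) - k2) := mul_nonneg (by positivity) h1
    have h3 : (d + 1 : ℝ) * (A2 - b2 / (d + 1) - k2) = (d + 1) * A2 - b2 - (d + 1) * k2 := by
      field_simp
    linarith
  have hA : ∑ j, ∫ ω, a ω j * a ω j ∂μ ≤ 1 := by
    rw [← integral_finsetSum _ (fun j _ => ((bda j).mul (bda j)).integrable)]
    have : ∫ ω, ∑ j, a ω j * a ω j ∂μ ≤ ∫ _ω, (1 : ℝ) ∂μ := by
      refine integral_mono_ae (integrable_finsetSum _ fun j _ =>
        ((bda j).mul (bda j)).integrable) (integrable_const _) ?_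
      filter_upwards [ha] with ω h
      have e : ∑ j, a ω j * a ω j = ‖a ω‖ ^ 2 := by
        rw [EuclideanSpace.norm_sq_eq]
        refine Finset.sum_congr rfl fun j _ => ?_
        rw [Real.norm_eq_abs, sq_abs, sq]
      rw [e]
      exact pow_le_one₀ (norm_nonneg _) h
    simpa using this
  have hsum : ∑ i, (∑ j, (om b * B) i j ^ 2 + (1 - w i) / w i * ∑ j, (om b * D) i j ^ 2) ≤
      (d : ℝ) + 1 := by
    have h := Finset.sum_le_sum fun j (_ : j ∈ Finset.univ) => key j
    rw [← Finset.mul_sum, Finset.sum_comm] at h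
    have h4 : (d + 1 : ℝ) * ∑ j, ∫ ω, a ω j * a ω j ∂μ ≤ (d + 1) * 1 :=
      mul_le_mul_of_nonneg_left hA (by positivity)
    refine le_trans (le_of_eq ?_) (h.trans (h4.trans_eq (mul_one _)))
    refine Finset.sum_congr rfl fun i _ => ?_
    rw [Finset.sum_add_distrib, Finset.mul_sum]
    simp only [om_mul]
  have hσ : (om b).det ^ 2 = 1 := by
    rw [← sq_abs, om_det, one_pow]
  have hom : om b * B + om b * D = om b * K := by rw [← Matrix.mul_add, hBD]
  have hom2 : (om b).transpose * om b = 1 := mul_eq_one_comm.1 (om_orth b)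
  have htr : ((om b * B + om b * D).adjugate * (om b * B)).trace -
      d * (om b * B + om b * D).det = (om b).det := by
    rw [hom, Matrix.adjugate_mul_distrib, Matrix.mul_assoc,
      ← Matrix.mul_assoc (om b).adjugate, Matrix.adjugate_mul, Matrix.det_mul, Matrix.smul_mul,
      Matrix.one_mul, Matrix.mul_smul, Matrix.trace_smul, smul_eq_mul]
    have h5 : (om b).det * (K.adjugate * B).trace - d * ((om b).det * K.det) =
        (om b).det * ((K.adjugate * B).trace - d * K.det) := by ring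
    rw [h5, hEq, mul_one]
  have hne2 : (om b * B + om b * D).det ≠ 0 := by
    rw [hom, Matrix.det_mul]
    refine mul_ne_zero ?_ hne
    intro h0
    rw [h0] at hσ
    norm_num at hσ
  obtain ⟨h6, h7⟩ := hKEQ d hd (om b * B) (om b * D) w (om b).det hw0 hwsum hsum hσ htr hne2
  rw [hom] at h6 h7
  have h8 : K.det ^ 2 = 1 := by
    have h := congrArg Matrix.det h6
    rw [Matrix.det_mul, Matrix.det_transpose, Matrix.det_mul, Matrix.det_one] at h
    have h' : (om b).det ^ 2 * K.det ^ 2 = 1 := by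
      rw [← h]; ring
    rwa [hσ, one_mul] at h'
  refine ⟨h8, fun hpos => ?_⟩
  have h9 : K.det = 1 := by
    have h : (K.det - 1) * (K.det + 1) = 0 := by linear_combination h8
    rcases mul_eq_zero.1 h with h | h
    · linarith
    · linarith
  have h10 : om b * D = 0 := h7 (by rw [Matrix.det_mul, h9, mul_one])
  have h11 : D = 0 := by
    have h : (om b).transpose * (om b * D) = 0 := by rw [h10, Matrix.mul_zero]
    rwa [← Matrix.mul_assoc, hom2, Matrix.one_mul] at h
  have hKB : B = K := by rw [← hBD, h11, add_zero]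
  have hKK : K.transpose * K = 1 := by
    have h := mul_eq_one_comm.1 h6
    rwa [Matrix.transpose_mul, Matrix.mul_assoc, ← Matrix.mul_assoc (om b).transpose, hom2,
      Matrix.one_mul] at h
  have hcol : ∀ j, (inner ℝ (col K j) (col K j) : ℝ) = 1 := by
    intro j
    rw [inner_col_col]
    have h := congrFun (congrFun hKK j) j
    rw [Matrix.mul_apply, Matrix.one_apply_eq] at h
    simpa only [Matrix.transpose_apply] using h
  have hsq : ∀ j, ∫ ω, (a ω j - inner ℝ (ν ω) (col K j)) ^ 2 ∂μ =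
      ∫ ω, a ω j * a ω j ∂μ - 1 / (d + 1) := by
    intro j
    have h := sq4 (bda j) (bdν (col K j)) (bdν (col K j)) (bdν (col K j)) (-1) 0 0
    have e1 : ∀ ω, (a ω j - inner ℝ (ν ω) (col K j)) ^ 2 =
        (a ω j + (-1) * inner ℝ (ν ω) (col K j) + 0 * inner ℝ (ν ω) (col K j) +
          0 * inner ℝ (ν ω) (col K j)) ^ 2 := by
      intro ω
      ring
    rw [integral_congr_ae (Filter.Eventually.of_forall e1), h, linB, hνν, hKB, hcol]
    ring
  have hzero : ∀ j, ∫ ω, (a ω j - inner ℝ (ν ω) (col K j)) ^ 2 ∂μ = 0 := by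
    have hnn : ∀ j ∈ Finset.univ, 0 ≤ ∫ ω, (a ω j - inner ℝ (ν ω) (col K j)) ^ 2 ∂μ :=
      fun j _ => integral_nonneg fun ω => sq_nonneg _
    have hle : ∑ j, ∫ ω, (a ω j - inner ℝ (ν ω) (col K j)) ^ 2 ∂μ ≤ 0 := by
      rw [Finset.sum_congr rfl fun j _ => hsq j, Finset.sum_sub_distrib, Finset.sum_const,
        Finset.card_univ, Fintype.card_fin, nsmul_eq_mul]
      have : ((d + 1 : ℕ) : ℝ) * (1 / (d + 1)) = 1 := by
        push_cast
        field_simp
      rw [this]
      linarith
    have h0 := le_antisymm hle (Finset.sum_nonneg hnn)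
    intro j
    exact (Finset.sum_eq_zero_iff_of_nonneg hnn).1 h0 j (Finset.mem_univ j)
  rw [MeasureTheory.ae_all_iff]
  intro j
  have hint : Integrable (fun ω => (a ω j - inner ℝ (ν ω) (col K j)) ^ 2) μ := by
    have e1 : (fun ω => (a ω j - inner ℝ (ν ω) (col K j)) ^ 2) = fun ω =>
        a ω j * a ω j + ((-2) * (a ω j * inner ℝ (ν ω) (col K j)) +
          inner ℝ (ν ω) (col K j) * inner ℝ (ν ω) (col K j)) := by
      funext ω
      ring
    rw [e1]
    exact iadd ((bda j).mul (bda j)).integrable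
      (iadd (((bda j).mul (bdν (col K j))).integrable.const_mul _)
        ((bdν (col K j)).mul (bdν (col K j))).integrable)
  have hae := (integral_eq_zero_iff_of_nonneg (fun ω => sq_nonneg _) hint).1 (hzero j)
  filter_upwards [hae] with ω hω
  have h12 : a ω j - inner ℝ (ν ω) (col K j) = 0 := by
    simpa using hω
  rw [sub_eq_zero.1 h12, inner_col]
  exact Finset.sum_congr rfl fun i _ => mul_comm _ _

end Pool.Agent.H780.R2.ABSE
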