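import Pool.Agent.H780.RG.StmA

/-!
# Project R2 (helper780): the case of equality in dimension two

As in project RG, with `d = 1` and strict inequalities in the anisotropic condition.
-/

set_option autoImplicit false

open MeasureTheory Metric Set Filter Topology InnerProductGeometry Matrix

namespace Pool.Agent.H780.R2

open Pool.Agent.H241R3.FV Pool.Agent.N526.CP Pool.Agent.N979.CP

/-- The strict form of `G2`. -/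
def G2s (d : ℕ) (s : ℝ) : Prop := ∃ pr pt : ℝ, 0 < pr ∧ 0 < pt ∧ pr + d * pt < 1 ∧
  Ar d s * (1 - pr) ≤ (d + 1) * √(1 - s ^ 2) ^ 3 * kr d s ^ 2 ∧
  At d s * (1 - pt) ≤ (d + 1) * √(1 - s ^ 2) * kt d s ^ 2

/-- The strict form of `Good2`. -/
def Good2s (d : ℕ) (s : ℝ) : Prop := 0 < s ∧ s < 1 ∧ ∀ s' ∈ Icc 0 s, G2s d s'

/-- KEQs: the case of equality, dimension two -/
def S_KEQs : Prop := ∀ (d : ℕ), d = 1 → ∀ (B D : Matrix (Fin (d + 1)) (Fin (d + 1)) ℝ)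
  (p : Fin (d + 1) → ℝ) (σ : ℝ), (∀ i, 0 < p i) → ∑ i, p i < 1 →
  ∑ i, (∑ j, B i j ^ 2 + (1 - p i) / p i * ∑ j, D i j ^ 2) ≤ d + 1 → σ ^ 2 = 1 →
  ((B + D).adjugate * B).trace - d * (B + D).det = σ → (B + D).det ≠ 0 →
    (B + D) * (B + D)ᵀ = 1 ∧ ((B + D).det = σ → D = 0)

/-- ABSEs -/
def S_ABSEs : Prop := ∀ (d : ℕ), d = 1 → ∀ (Ω : Type) [MeasurableSpace Ω] (μ : Measure Ω)
  [IsProbabilityMeasure μ] (ν p a : Ω → E (d + 1)),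
  Measurable ν → Measurable p → Measurable a → (∃ C : ℝ, ∀ ω, ‖ν ω‖ ≤ C ∧ ‖p ω‖ ≤ C) →
  (∀ᵐ ω ∂μ, ‖a ω‖ ≤ 1) →
  (∀ u v : E (d + 1), ∫ ω, inner ℝ (ν ω) u * inner ℝ (ν ω) v ∂μ = inner ℝ u v / (d + 1)) →
  (∀ u v : E (d + 1), ∫ ω, inner ℝ (p ω) u * inner ℝ (ν ω) v ∂μ = inner ℝ u v) →
  ∀ (e : E (d + 1)) (pr pt : ℝ), ‖e‖ = 1 → 0 < pr → 0 < pt → pr + d * pt < 1 →
  (∀ v : E (d + 1), ∫ ω, inner ℝ (p ω) v ^ 2 ∂μ ≤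
    (d + 1) / (1 - pt) * (‖v‖ ^ 2 - inner ℝ e v ^ 2) + (d + 1) / (1 - pr) * inner ℝ e v ^ 2) →
  ((Mx μ p a).adjugate * ((d + 1 : ℝ) • Mx μ ν a)).trace - d * (Mx μ p a).det = 1 →
  (Mx μ p a).det ≠ 0 →
    (Mx μ p a).det ^ 2 = 1 ∧
    (0 < (Mx μ p a).det → ∀ᵐ ω ∂μ, ∀ j, a ω j = ∑ i, Mx μ p a i j * ν ω i)

/-- EIG2s -/
def S_EIG2s : Prop := ∀ (d : ℕ), 1 ≤ d → ∀ (X : E (d + 1)), ‖X‖ < 1 → G2s d ‖X‖ →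
  (DZ X).PosDef ∧ ∃ (e : E (d + 1)) (pr pt : ℝ), ‖e‖ = 1 ∧ 0 < pr ∧ 0 < pt ∧ pr + d * pt < 1 ∧
  ∀ v : E (d + 1), ∫ θ, ip (cl ((DZ X)⁻¹ * L1 X) v) θ ^ 2 * √(1 - ip X θ ^ 2) ^ (d + 1)
    ∂(sg (d + 1)) ≤ √(1 - ‖X‖ ^ 2) * ((d + 1) / (1 - pt) * (‖v‖ ^ 2 - inner ℝ e v ^ 2) +
      (d + 1) / (1 - pr) * inner ℝ e v ^ 2)

/-- COMEs -/
def S_COMEs : Prop := ∀ (d : ℕ), d = 1 → ∀ (X : E (d + 1)), ‖X‖ < 1 → G2s d ‖X‖ →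
  ∀ (a : Sph (d + 1) → E (d + 1)), Measurable a → (∀ᵐ θ ∂(sg (d + 1)), ‖a θ‖ ≤ 1) →
  (d + 1) * ∫ θ, (Vm X θ * Lm X a +
      vecMulVec (fun i => (θ : E (d + 1)) i) (fun i => a θ i)).det ∂(sg (d + 1)) -
    d * ((Lm X a).det * (√(1 - ‖X‖ ^ 2))⁻¹) = 1 →
  (Lm X a).det ≠ 0 →
    ((Lm X a).det * (√(1 - ‖X‖ ^ 2))⁻¹) ^ 2 = 1 ∧
    (0 < (Lm X a).det → ∀ᵐ θ ∂(sg (d + 1)), ∀ j, a θ j =
      (√(1 - ip X θ ^ 2))⁻¹ * ∑ i, Lm X a i j * (θ : E (d + 1)) i)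

/-- The case of equality in the pointwise inequality, for radii with sine at most `s`. -/
def CB (d : ℕ) (s : ℝ) : Prop := ∀ (X : E (d + 1)), ‖X‖ ≤ s →
  ∀ (α : Sph (d + 1) → E (d + 1)), Measurable α →
  ∀ (G : Matrix (Fin (d + 1)) (Fin (d + 1)) ℝ), G.PosDef →
  (∀ᵐ θ ∂(sg (d + 1)), ∀ v, |inner ℝ (α θ) v| ≤ gnorm G v) →
  (d + 1) * ∫ θ, (Vm X θ * Lm X α +
      vecMulVec (fun i => (θ : E (d + 1)) i) (fun i => α θ i)).det ∂(sg (d + 1)) -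
    d * ((Lm X α).det * (√(1 - ‖X‖ ^ 2))⁻¹) = √G.det →
  (Lm X α).det ≠ 0 →
    ((Lm X α).det * (√(1 - ‖X‖ ^ 2))⁻¹) ^ 2 = G.det ∧
    (0 < (Lm X α).det → ∀ᵐ θ ∂(sg (d + 1)), ∀ j, α θ j =
      (√(1 - ip X θ ^ 2))⁻¹ * ∑ i, Lm X α i j * (θ : E (d + 1)) i)

/-- COMBEs -/
def S_COMBEs : Prop := ∀ (d : ℕ), d = 1 → ∀ (s : ℝ), Good2s d s → CB d s

/-- GXs: closed form of the strict condition -/
def S_GXs : Prop := ∀ (d : ℕ), 1 ≤ d → ∀ s : ℝ, 0 ≤ s → s < 1 →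
  (d : ℝ) < (d + 1) * √(1 - s ^ 2) ^ 3 * kr d s ^ 2 / Ar d s +
    d * ((d + 1) * √(1 - s ^ 2) * kt d s ^ 2 / At d s) → G2s d s

/-- GAs: dimension two -/
def S_GAs : Prop := ∀ s : ℝ, 0 < s → s ≤ 947 / 1000 → Good2s 1 s

end Pool.Agent.H780.R2
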