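import Pool.Agent.H780.RG.Eqv
import Pool.Agent.H780.R2.Ptwe

/-!
# The case of equality of the volumes
-/

set_option autoImplicit false

open MeasureTheory Metric Set Filter Topology InnerProductGeometry Matrix

namespace Pool.Agent.H780.R2.EQV

open Pool.Agent.H241R3.FV Pool.Agent.N526.CP Pool.Agent.N979.CP Pool.Agent.H780.NV
open Pool.Agent.H780.RG.EQV

/-- the case of equality of the volumes -/
theorem eqv {d : ℕ} (hd1 : 1 ≤ d) {s : ℝ} (hE : CB d s) (hGood : Good2 d s) {M : Type}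
    [MetricSpace M]
    {bd : Sph (d + 1) → M} {N : Set M} (S : NFill (d + 1) M bd N) {h : M → ℝ} (hh : Hgt N h)
    (F : E (d + 1) → E (d + 1)) (L : NNReal) (hFL : LipschitzOnWith L F (closedBall 0 1))
    (hFs : ∀ y ∈ closedBall (0 : E (d + 1)) 1, ‖F y‖ ≤ s)
    {g : Sph (d + 1) → M → ℝ} (hg : FamB bd h s F g)
    (hV0 : 0 ≤ ∫ y in ball (0 : E (d + 1)) 1, (fderiv ℝ F y).det * (√(1 - ‖F y‖ ^ 2))⁻¹)
    (hV : S.vol ≤ ENNReal.ofReal
      (∫ y in ball (0 : E (d + 1)) 1, (fderiv ℝ F y).det * (√(1 - ‖F y‖ ^ 2))⁻¹)) :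
    (∀ i, ∀ᵐ p ∂(volume : Measure (E (d + 1))), p ∈ (S.chart i).D →
      ∃ L : E (d + 1) →L[ℝ] E (d + 1), HasFDerivAt (Xf g ∘ (S.chart i).map) L p ∧
        |L.det| * (√(1 - ‖Xf g ((S.chart i).map p)‖ ^ 2))⁻¹ ≤ √((S.chart i).G p).det) ∧
    ∀ i, ∀ᵐ p ∂(volume : Measure (E (d + 1))), p ∈ (S.chart i).D → ∀ᵐ θ ∂(sg (d + 1)),
      HasFDerivAt (fun y => uf g θ ((S.chart i).map y)) (0 : E (d + 1) →L[ℝ] ℝ) p := by
  have hvol' : S.vol < ⊤ := hV.trans_lt ENNReal.ofReal_lt_top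
  have hs0 : 0 < s := hGood.1
  have hs1 : s < 1 := hGood.2.1
  obtain ⟨K, hK1, hK2, hK3, hK4, hK5, hK6, hK7⟩ := lip hd1 hh.nonneg hs0 hs1 hg hFL hFs
  obtain ⟨hprob, -, -⟩ := Pool.Agent.N979.CP.Fin.sph d hd1
  have := hprob
  -- Stokes
  have hst1 : ∀ θ, jn S (Psi g θ) =
      ∫ y in ball (0 : E (d + 1)) 1, (fderiv ℝ (PsiF F θ) y).det := fun θ =>
    Sto.t (by omega) S hvol' hh (hK1 θ) (hK3 θ) (fun x => hK5 θ x)
  have hst2 : jn S (Hf ∘ Xf g) =
      ∫ y in ball (0 : E (d + 1)) 1, (fderiv ℝ (Hf ∘ F) y).det :=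
    Sto.t (by omega) S hvol' hh hK2 hK4 (fun x => hK6 x)
  -- Fubini
  obtain ⟨hF2, hF3⟩ := fub S hvol' K (Psi g) (fun θ => (hK1 θ).lip) hK7
  obtain ⟨hG2, -⟩ := fub S hvol' K (fun _ => Hf ∘ Xf g) (fun _ => hK2.lip)
    (hK2.lip.continuous.comp continuous_snd)
  have hG4 : ∀ i, IntegrableOn (fun p => (fderiv ℝ (Hf ∘ Xf g ∘ (S.chart i).map) p).det)
      (S.chart i).D := by
    intro i
    have h := hG2 i
    simp only [integral_const, probReal_univ, one_smul] at h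
    exact h
  have hcap := CAPVF.t Pool.Agent.N979.CP.Fin.sph Pool.Agent.N979.CP.Fin.gram UDER.t
    Pool.Agent.N979.CP.Fin.detv d hd1 s hs0 hs1 F L hFL hFs
  obtain ⟨V, hVdef⟩ : ∃ V, V = ∫ y in ball (0 : E (d + 1)) 1,
    (fderiv ℝ F y).det * (√(1 - ‖F y‖ ^ 2))⁻¹ := ⟨_, rfl⟩
  rw [← hVdef] at hV0 hV hcap
  have h1 : V = ∑ i, ∫ p in (S.chart i).D,
      ((d + 1) * ∫ θ, (fderiv ℝ (Psi g θ ∘ (S.chart i).map) p).det ∂(sg (d + 1)) -
        d * (fderiv ℝ (Hf ∘ Xf g ∘ (S.chart i).map) p).det) := by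
    rw [← hcap, ← hst2]
    simp only [← hst1]
    rw [hF3]
    unfold jn
    rw [Finset.mul_sum, Finset.mul_sum, ← Finset.sum_sub_distrib]
    refine Finset.sum_congr rfl fun i _ => ?_
    rw [integral_sub ((hF2 i).const_mul _) ((hG4 i).const_mul _), integral_const_mul,
      integral_const_mul]
    rfl
  -- the second integral is also the volume
  have h2 : V = ∑ i, ∫ p in (S.chart i).D, (fderiv ℝ (Hf ∘ Xf g ∘ (S.chart i).map) p).det := by
    have e2 : ∫ y in ball (0 : E (d + 1)) 1, (fderiv ℝ (Hf ∘ F) y).det = V := by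
      rw [hVdef]
      apply integral_congr_ae
      have hLb : LipschitzOnWith L F (ball (0 : E (d + 1)) 1) := hFL.mono ball_subset_closedBall
      have h3 := hLb.ae_differentiableWithinAt (μ := (volume : Measure (E (d + 1))))
        measurableSet_ball
      filter_upwards [h3, ae_restrict_mem measurableSet_ball] with y h4 hy
      exact CAPVF.det_hfF UDER.t hd1 ((hFs y (ball_subset_closedBall hy)).trans_lt hs1)
        (h4.differentiableAt (isOpen_ball.mem_nhds hy))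
    rw [← e2, ← hst2]
    rfl
  obtain ⟨v1, v2⟩ := vol_int S hvol'
  have hVr : S.vol.toReal ≤ V := by
    rw [← ENNReal.toReal_ofReal hV0]
    exact ENNReal.toReal_mono ENNReal.ofReal_ne_top hV
  have k1 := eq_of_sum volume (fun i => (S.chart i).D)
    (fun i p => (d + 1) * ∫ θ, (fderiv ℝ (Psi g θ ∘ (S.chart i).map) p).det ∂(sg (d + 1)) -
        d * (fderiv ℝ (Hf ∘ Xf g ∘ (S.chart i).map) p).det)
    (fun i p => √((S.chart i).G p).det)
    (fun i => ((hF2 i).const_mul _).sub ((hG4 i).const_mul _)) v1 (fun i => by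
      have h3 := ae_restrict_of_ae (s := (S.chart i).D) (ptw hd1 (S.chart i) hGood hg)
      filter_upwards [h3, ae_restrict_mem (S.chart i).meas_D] with p hp hpD
      exact hp ((S.chart i).D_sub hpD)) (by
      rw [v2, ← h1]
      exact hVr)
  have k2 : ∀ i, ∀ᵐ p ∂(volume.restrict (S.chart i).D), _ := fun i => by
    have h3 := ae_restrict_of_ae (s := (S.chart i).D) (R2.PTWE.ptwe hd1 hE (S.chart i) hGood hg)
    filter_upwards [h3, k1 i, ae_restrict_mem (S.chart i).meas_D] with p hp hq hpD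
    exact hp ((S.chart i).D_sub hpD) hq
  have k3 := eq_of_sum volume (fun i => (S.chart i).D)
    (fun i p => (fderiv ℝ (Hf ∘ Xf g ∘ (S.chart i).map) p).det)
    (fun i p => √((S.chart i).G p).det) hG4 v1 (fun i => by
      filter_upwards [k2 i] with p hp
      exact hp.2.1) (by
      rw [v2, ← h2]
      exact hVr)
  refine ⟨fun i => ?_, fun i => ?_⟩
  · rw [← ae_restrict_iff' (S.chart i).meas_D]
    filter_upwards [k2 i] with p hp
    exact hp.1
  · rw [← ae_restrict_iff' (S.chart i).meas_D]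
    filter_upwards [k2 i, k3 i] with p hp hq
    exact hp.2.2 hq

end Pool.Agent.H780.R2.EQV
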