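import Pool.Agent.H780.R2.Stm
import Pool.Graph.R_pool_sql_team_seeded_63374d34.N526.CP.MOM
import Pool.Graph.R_pool_sql_team_seeded_63374d34.N526.CP.GD1

/-!
# CPN2/GA: the anisotropic condition in dimension two, radii with sine at most 0.947 (helper335)

With `v = 1 - s² u²` and `c = √(1 - s²)`, the function `v^(-1/2)` is bounded below by the
combination of `v`, `1`, `v⁻¹`, `v⁻²` which is tangent to it at the end points `v = c²` and `v = 1`;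
the integrals of these functions over the circle are known.
-/

set_option autoImplicit false

open MeasureTheory Metric Set Filter Topology

namespace Pool.Agent.H780.R2.GA

open Pool.Agent.H241R3.FV Pool.Agent.N526.CP Pool.Agent.N979.CP
open Pool.Agent.N526.CP.GD1 (x_le cint quad)

/-- the tangent function -/
lemma pw {w c : ℝ} (hw : 0 < w) (hc : 0 < c) :
    (-(w ^ 2) + 3 * (1 + c + c ^ 2) + 3 * c * (1 + c + c ^ 2) * (w⁻¹) ^ 2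
      - c ^ 3 * (w⁻¹) ^ 4) / (2 * (1 + c) ^ 3) ≤ w⁻¹ := by
  have h1 : w⁻¹ - (-(w ^ 2) + 3 * (1 + c + c ^ 2) + 3 * c * (1 + c + c ^ 2) * (w⁻¹) ^ 2
      - c ^ 3 * (w⁻¹) ^ 4) / (2 * (1 + c) ^ 3) =
      (w - c) ^ 2 * (w - 1) ^ 2 * (w ^ 2 + 2 * (1 + c) * w + c) / (2 * (1 + c) ^ 3 * w ^ 4) := by
    field_simp
    ring
  have h2 : 0 ≤ (w - c) ^ 2 * (w - 1) ^ 2 * (w ^ 2 + 2 * (1 + c) * w + c) /
      (2 * (1 + c) ^ 3 * w ^ 4) := by positivity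
  linarith

/-- the numerical inequality -/
lemma num {c : ℝ} (h0 : 803 / 2500 ≤ c) (h1 : c ≤ 1) :
    16 * (1 + c) ^ 8 * ((1 + 3 * c ^ 2) * (3 + c ^ 2)) <
      c ^ 3 * (31 + 43 * c + 45 * c ^ 2 + 9 * c ^ 3) ^ 2 * (3 + c ^ 2) +
        c * (9 + 45 * c + 43 * c ^ 2 + 31 * c ^ 3) ^ 2 * (1 + 3 * c ^ 2) := by
  have hc : 0 < c := by linarith
  obtain ⟨y, hy⟩ : ∃ y : ℝ, y = c + 1 / c := ⟨_, rfl⟩
  have hy0 : 0 < y := by rw [hy]; positivity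
  have hyY : y ≤ 34346 / 10000 := by
    rw [hy, ← sub_nonneg]
    have h2 : 34346 / 10000 - (c + 1 / c) =
        ((c - 803 / 2500) * (34346 / 10000 - 803 / 2500 - c) +
          (803 / 2500 * (34346 / 10000 - 803 / 2500) - 1)) / c := by
      field_simp
      ring
    rw [h2]
    refine div_nonneg ?_ hc.le
    have h3 : 0 ≤ (c - 803 / 2500) * (34346 / 10000 - 803 / 2500 - c) :=
      mul_nonneg (by linarith) (by linarith)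
    have h4 : (0 : ℝ) ≤ 803 / 2500 * (34346 / 10000 - 803 / 2500) - 1 := by norm_num
    linarith
  have hq : 0 < 2784 + 8496 * y + 9312 * y ^ 2 + 3472 * y ^ 3 - 406 * y ^ 4 - 303 * y ^ 5
      - 48 * y ^ 6 := by
    have e1 : y * y ^ 3 ≤ 34346 / 10000 * y ^ 3 := mul_le_mul_of_nonneg_right hyY (by positivity)
    have e2 : y * y ^ 2 ≤ 34346 / 10000 * y ^ 2 := mul_le_mul_of_nonneg_right hyY (by positivity)
    have e3 : y * y ≤ 34346 / 10000 * y := mul_le_mul_of_nonneg_right hyY (by positivity)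
    have e4 : y * y ^ 4 ≤ 34346 / 10000 * y ^ 4 := mul_le_mul_of_nonneg_right hyY (by positivity)
    have e5 : y * y ^ 5 ≤ 34346 / 10000 * y ^ 5 := mul_le_mul_of_nonneg_right hyY (by positivity)
    have e6 : (0 : ℝ) < y ^ 4 := by positivity
    have f1 : y * y ^ 3 = y ^ 4 := by ring
    have f2 : y * y ^ 2 = y ^ 3 := by ring
    have f3 : y * y = y ^ 2 := by ring
    have f4 : y * y ^ 4 = y ^ 5 := by ring
    have f5 : y * y ^ 5 = y ^ 6 := by ring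
    rw [f1] at e1
    rw [f2] at e2
    rw [f3] at e3
    rw [f4] at e4
    rw [f5] at e5
    linarith
  have hp : c ^ 3 * (31 + 43 * c + 45 * c ^ 2 + 9 * c ^ 3) ^ 2 * (3 + c ^ 2) +
        c * (9 + 45 * c + 43 * c ^ 2 + 31 * c ^ 3) ^ 2 * (1 + 3 * c ^ 2) -
      16 * (1 + c) ^ 8 * ((1 + 3 * c ^ 2) * (3 + c ^ 2)) =
      c ^ 6 * (2784 + 8496 * y + 9312 * y ^ 2 + 3472 * y ^ 3 - 406 * y ^ 4 - 303 * y ^ 5
        - 48 * y ^ 6) := by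
    rw [hy]
    field_simp
    ring
  have h5 : 0 < c ^ 6 * (2784 + 8496 * y + 9312 * y ^ 2 + 3472 * y ^ 3 - 406 * y ^ 4
      - 303 * y ^ 5 - 48 * y ^ 6) := by positivity
  linarith

theorem main (hS : S_SPH) (hG : S_GRAM) (hX : S_GXs) : S_GAs := by
  intro s hs hs9
  have hp : IsProbabilityMeasure (sg 2) := (hS 1 le_rfl).1
  obtain ⟨m2, m4, -⟩ := MOM.t 1 le_rfl
  have h2 : ∫ θ : Sph 2, (θ : E 2) 0 ^ 2 ∂(sg 2) = 1 / 2 := by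
    refine m2.trans ?_
    norm_num
  have h4 : ∫ θ : Sph 2, (θ : E 2) 0 ^ 4 ∂(sg 2) = 3 / 8 := by
    refine m4.trans ?_
    norm_num
  refine ⟨hs, by linarith, ?_⟩
  intro r hr
  have hr0 : 0 ≤ r := hr.1
  have hr9 : r ≤ 947 / 1000 := hr.2.trans hs9
  have hr1 : r < 1 := by linarith
  obtain ⟨c, hc⟩ : ∃ c : ℝ, c = √(1 - r ^ 2) := ⟨_, rfl⟩
  have hrr : r ^ 2 ≤ (947 / 1000) ^ 2 := pow_le_pow_left₀ hr0 hr9 2
  have hpos : 0 < 1 - r ^ 2 := by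
    have h0 : ((947 : ℝ) / 1000) ^ 2 < 1 := by norm_num
    linarith
  have hc0 : 0 < c := by rw [hc]; exact Real.sqrt_pos.2 hpos
  have hc2 : c ^ 2 = 1 - r ^ 2 := by rw [hc, Real.sq_sqrt hpos.le]
  have hca : 803 / 2500 ≤ c := by
    rw [hc]
    refine Real.le_sqrt_of_sq_le ?_
    have h0 : ((947 : ℝ) / 1000) ^ 2 + (803 / 2500) ^ 2 ≤ 1 := by norm_num
    linarith
  have hc1 : c ≤ 1 := by
    rw [hc, Real.sqrt_le_iff]
    exact ⟨zero_le_one, by nlinarith [sq_nonneg r]⟩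
  have hu : ∀ θ : Sph 2, 0 < 1 - (r * (θ : E 2) 0) ^ 2 := by
    intro θ
    have h1 := x_le θ
    have h3 : (r * (θ : E 2) 0) ^ 2 = r ^ 2 * ((θ : E 2) 0) ^ 2 := by ring
    rw [h3]
    nlinarith [sq_nonneg ((θ : E 2) 0), sq_nonneg r]
  have hcs : Continuous fun θ : Sph 2 => (√(1 - (r * (θ : E 2) 0) ^ 2))⁻¹ := by
    refine Continuous.inv₀ (by fun_prop) fun θ => ?_
    exact (Real.sqrt_pos.2 (hu θ)).ne'
  have hx : Continuous fun θ : Sph 2 => (θ : E 2) 0 ^ 2 := by fun_prop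
  -- the two squares
  have hAr : Ar 1 r = (1 + 3 * c ^ 2) / 8 := by
    unfold Ar
    have e1 : ∀ θ : Sph 2, (θ : E 2) 0 ^ 2 * (√(1 - (r * (θ : E 2) 0) ^ 2)) ^ (1 + 1) =
        0 + 1 * (θ : E 2) 0 ^ 2 + (-r ^ 2) * (θ : E 2) 0 ^ 4 := by
      intro θ
      rw [Real.sq_sqrt (hu θ).le]
      ring
    refine (integral_congr_ae (Eventually.of_forall e1)).trans ?_
    refine (quad hp h2 h4 0 1 (-r ^ 2)).trans ?_
    rw [hc2]
    ring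
  have hAt : At 1 r = (3 + c ^ 2) / 8 := by
    unfold At
    have e1 : ∀ θ : Sph 2, (1 - (θ : E 2) 0 ^ 2) * (√(1 - (r * (θ : E 2) 0) ^ 2)) ^ (1 + 1) =
        1 + (-1 - r ^ 2) * (θ : E 2) 0 ^ 2 + r ^ 2 * (θ : E 2) 0 ^ 4 := by
      intro θ
      rw [Real.sq_sqrt (hu θ).le]
      ring
    rw [show ((1 : ℕ) : ℝ) = 1 by norm_num, div_one]
    refine (integral_congr_ae (Eventually.of_forall e1)).trans ?_
    refine (quad hp h2 h4 1 (-1 - r ^ 2) (r ^ 2)).trans ?_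
    rw [hc2]
    ring
  -- the integrals of the negative powers
  have hX1 : ‖(EuclideanSpace.single 0 r : E 2)‖ = r := by
    rw [PiLp.norm_single, Real.norm_eq_abs, abs_of_nonneg hr0]
  have hip : ∀ (a : ℝ) (θ : Sph 2), ip (EuclideanSpace.single 0 a : E 2) θ = a * (θ : E 2) 0 := by
    intro a θ
    unfold ip
    rw [EuclideanSpace.inner_single_left]
    simp
  have hip1 : ∀ (a : ℝ) (θ : Sph 2), ip (EuclideanSpace.single 1 a : E 2) θ = a * (θ : E 2) 1 := by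
    intro a θ
    unfold ip
    rw [EuclideanSpace.inner_single_left]
    simp
  obtain ⟨g1, g2⟩ := hG 1 le_rfl (EuclideanSpace.single 0 r : E 2) (by rw [hX1]; exact hr1)
  rw [hX1, ← hc] at g1
  have I2 : ∫ θ : Sph 2, ((√(1 - (r * (θ : E 2) 0) ^ 2))⁻¹) ^ 2 ∂(sg 2) = c⁻¹ := by
    rw [← g1]
    refine integral_congr_ae (Eventually.of_forall fun θ => ?_)
    simp only [hip]
  have K0 : ∫ θ : Sph 2, (θ : E 2) 0 ^ 2 * ((√(1 - (r * (θ : E 2) 0) ^ 2))⁻¹) ^ 4 ∂(sg 2) =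
      1 / (2 * c ^ 3) := by
    have g3 := g2 (EuclideanSpace.single 0 1 : E 2) (EuclideanSpace.single 0 1 : E 2)
    rw [hX1, ← hc] at g3
    have g4 : ∫ θ : Sph 2, (θ : E 2) 0 ^ 2 * ((√(1 - (r * (θ : E 2) 0) ^ 2))⁻¹) ^ 4 ∂(sg 2) =
        ∫ θ : Sph 2, ((√(1 - ip (EuclideanSpace.single 0 r : E 2) θ ^ 2))⁻¹) ^ (1 + 3) *
          (ip (EuclideanSpace.single 0 1 : E 2) θ * ip (EuclideanSpace.single 0 1 : E 2) θ)
          ∂(sg 2) := by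
      refine integral_congr_ae (Eventually.of_forall fun θ => ?_)
      simp only [hip]
      ring
    rw [g4]
    refine g3.trans ?_
    rw [← hc2]
    simp only [EuclideanSpace.inner_single_left]
    simp
    have hr2 : r * r = 1 - c ^ 2 := by rw [hc2]; ring
    rw [hr2]
    field_simp
    ring
  have K1 : ∫ θ : Sph 2, (1 - (θ : E 2) 0 ^ 2) * ((√(1 - (r * (θ : E 2) 0) ^ 2))⁻¹) ^ 4 ∂(sg 2) =
      1 / (2 * c) := by
    have g3 := g2 (EuclideanSpace.single 1 1 : E 2) (EuclideanSpace.single 1 1 : E 2)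
    rw [hX1, ← hc] at g3
    have g4 : ∫ θ : Sph 2, (1 - (θ : E 2) 0 ^ 2) * ((√(1 - (r * (θ : E 2) 0) ^ 2))⁻¹) ^ 4 ∂(sg 2) =
        ∫ θ : Sph 2, ((√(1 - ip (EuclideanSpace.single 0 r : E 2) θ ^ 2))⁻¹) ^ (1 + 3) *
          (ip (EuclideanSpace.single 1 1 : E 2) θ * ip (EuclideanSpace.single 1 1 : E 2) θ)
          ∂(sg 2) := by
      refine integral_congr_ae (Eventually.of_forall fun θ => ?_)
      simp only [hip, hip1]
      have h5 : ‖(θ : E 2)‖ = 1 := norm_sph θ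
      have h6 : (θ : E 2) 0 ^ 2 + (θ : E 2) 1 ^ 2 = 1 := by
        have h7 := EuclideanSpace.real_norm_sq_eq (θ : E 2)
        rw [h5, Fin.sum_univ_two] at h7
        linarith
      have h8 : 1 - (θ : E 2) 0 ^ 2 = (θ : E 2) 1 ^ 2 := by linarith
      rw [h8]
      ring
    rw [g4]
    refine g3.trans ?_
    rw [← hc2]
    simp only [EuclideanSpace.inner_single_left]
    simp
    field_simp
    norm_num
  obtain ⟨J, hJ⟩ : ∃ J : ℝ, J = ∫ θ : Sph 2, (θ : E 2) 0 ^ 2 *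
    ((√(1 - (r * (θ : E 2) 0) ^ 2))⁻¹) ^ 2 ∂(sg 2) := ⟨_, rfl⟩
  have hiJ : Integrable (fun θ : Sph 2 => (θ : E 2) 0 ^ 2 *
      ((√(1 - (r * (θ : E 2) 0) ^ 2))⁻¹) ^ 2) (sg 2) := cint hp (hx.mul (hcs.pow 2))
  have hi2 : Integrable (fun θ : Sph 2 => ((√(1 - (r * (θ : E 2) 0) ^ 2))⁻¹) ^ 2) (sg 2) :=
    cint hp (hcs.pow 2)
  have hinv : ∀ θ : Sph 2, ((√(1 - (r * (θ : E 2) 0) ^ 2))⁻¹) ^ 2 =
      (1 - (r * (θ : E 2) 0) ^ 2)⁻¹ := by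
    intro θ
    rw [inv_pow, Real.sq_sqrt (hu θ).le]
  have hJ1 : r ^ 2 * J = c⁻¹ - 1 := by
    have e1 : ∀ θ : Sph 2, r ^ 2 * ((θ : E 2) 0 ^ 2 *
        ((√(1 - (r * (θ : E 2) 0) ^ 2))⁻¹) ^ 2) =
        ((√(1 - (r * (θ : E 2) 0) ^ 2))⁻¹) ^ 2 - 1 := by
      intro θ
      rw [hinv]
      have h3 := mul_inv_cancel₀ (hu θ).ne'
      linear_combination (-1 : ℝ) * h3
    rw [hJ, ← integral_const_mul]
    refine (integral_congr_ae (Eventually.of_forall e1)).trans ?_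
    rw [integral_sub hi2 (integrable_const _), I2]
    simp
  have hJ2 : J = 1 / (c * (1 + c)) := by
    by_cases h0 : r = 0
    · subst h0
      have hc3 : c = 1 := by rw [hc]; simp
      rw [hJ, hc3]
      have e1 : ∀ θ : Sph 2, (θ : E 2) 0 ^ 2 *
          ((√(1 - (0 * (θ : E 2) 0) ^ 2))⁻¹) ^ 2 = (θ : E 2) 0 ^ 2 := by
        intro θ
        simp
      refine (integral_congr_ae (Eventually.of_forall e1)).trans ?_
      rw [h2]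
      norm_num
    · have hr2 : r ^ 2 ≠ 0 := pow_ne_zero _ h0
      apply mul_left_cancel₀ hr2
      rw [hJ1]
      have h5 : r ^ 2 = (1 - c) * (1 + c) := by
        have : r ^ 2 = 1 - c ^ 2 := by linarith
        rw [this]; ring
      rw [h5]
      field_simp
  have hJ3 : ∫ θ : Sph 2, (1 - (θ : E 2) 0 ^ 2) *
      ((√(1 - (r * (θ : E 2) 0) ^ 2))⁻¹) ^ 2 ∂(sg 2) = 1 / (1 + c) := by
    have e1 : ∀ θ : Sph 2, (1 - (θ : E 2) 0 ^ 2) *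
        ((√(1 - (r * (θ : E 2) 0) ^ 2))⁻¹) ^ 2 = ((√(1 - (r * (θ : E 2) 0) ^ 2))⁻¹) ^ 2 -
        (θ : E 2) 0 ^ 2 * ((√(1 - (r * (θ : E 2) 0) ^ 2))⁻¹) ^ 2 := by
      intro θ
      ring
    refine (integral_congr_ae (Eventually.of_forall e1)).trans ?_
    rw [integral_sub hi2 hiJ, I2, ← hJ, hJ2]
    field_simp
    ring
  have hσ : 0 < 2 * (1 + c) ^ 3 := by positivity
  obtain ⟨δ, hδ⟩ : ∃ δ : ℝ, δ = 1 + c + c ^ 2 := ⟨_, rfl⟩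
  -- the radial weight
  have hkr : (31 + 43 * c + 45 * c ^ 2 + 9 * c ^ 3) / (16 * (1 + c) ^ 4) ≤ kr 1 r := by
    unfold kr
    have e1 : ∀ θ : Sph 2, ((0 + (3 * δ - 1) * (θ : E 2) 0 ^ 2 + r ^ 2 * (θ : E 2) 0 ^ 4) +
        (3 * c * δ) * ((θ : E 2) 0 ^ 2 * ((√(1 - (r * (θ : E 2) 0) ^ 2))⁻¹) ^ 2) -
        c ^ 3 * ((θ : E 2) 0 ^ 2 * ((√(1 - (r * (θ : E 2) 0) ^ 2))⁻¹) ^ 4)) /
          (2 * (1 + c) ^ 3) ≤
        (θ : E 2) 0 ^ 2 * (√(1 - (r * (θ : E 2) 0) ^ 2))⁻¹ := by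
      intro θ
      have e2 := mul_le_mul_of_nonneg_left (pw (Real.sqrt_pos.2 (hu θ)) hc0)
        (sq_nonneg ((θ : E 2) 0))
      refine le_trans (le_of_eq ?_) e2
      rw [Real.sq_sqrt (hu θ).le, ← hδ]
      ring
    have i1 : Integrable (fun θ : Sph 2 => 0 + (3 * δ - 1) * (θ : E 2) 0 ^ 2 +
      r ^ 2 * (θ : E 2) 0 ^ 4) (sg 2) := cint hp (by fun_prop)
    have i2 : Integrable (fun θ : Sph 2 => (3 * c * δ) * ((θ : E 2) 0 ^ 2 *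
      ((√(1 - (r * (θ : E 2) 0) ^ 2))⁻¹) ^ 2)) (sg 2) := hiJ.const_mul _
    have i3 : Integrable (fun θ : Sph 2 => c ^ 3 * ((θ : E 2) 0 ^ 2 *
      ((√(1 - (r * (θ : E 2) 0) ^ 2))⁻¹) ^ 4)) (sg 2) :=
      (cint hp (hx.mul (hcs.pow 4))).const_mul _
    have i12 : Integrable (fun θ : Sph 2 => (0 + (3 * δ - 1) * (θ : E 2) 0 ^ 2 +
      r ^ 2 * (θ : E 2) 0 ^ 4) + (3 * c * δ) * ((θ : E 2) 0 ^ 2 *
      ((√(1 - (r * (θ : E 2) 0) ^ 2))⁻¹) ^ 2)) (sg 2) := i1.add i2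
    have i123 : Integrable (fun θ : Sph 2 => ((0 + (3 * δ - 1) * (θ : E 2) 0 ^ 2 +
      r ^ 2 * (θ : E 2) 0 ^ 4) + (3 * c * δ) * ((θ : E 2) 0 ^ 2 *
      ((√(1 - (r * (θ : E 2) 0) ^ 2))⁻¹) ^ 2) -
        c ^ 3 * ((θ : E 2) 0 ^ 2 * ((√(1 - (r * (θ : E 2) 0) ^ 2))⁻¹) ^ 4)) /
          (2 * (1 + c) ^ 3)) (sg 2) := (i12.sub i3).div_const _
    refine le_trans (le_of_eq ?_) (integral_mono i123 (cint hp (hx.mul hcs)) e1)
    have e3 : ∫ θ : Sph 2, ((0 + (3 * δ - 1) * (θ : E 2) 0 ^ 2 + r ^ 2 * (θ : E 2) 0 ^ 4) +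
        (3 * c * δ) * ((θ : E 2) 0 ^ 2 * ((√(1 - (r * (θ : E 2) 0) ^ 2))⁻¹) ^ 2) -
        c ^ 3 * ((θ : E 2) 0 ^ 2 * ((√(1 - (r * (θ : E 2) 0) ^ 2))⁻¹) ^ 4)) ∂(sg 2) =
        (0 + (3 * δ - 1) / 2 + 3 * r ^ 2 / 8) + 3 * c * δ * J - c ^ 3 * (1 / (2 * c ^ 3)) := by
      rw [integral_sub i12 i3, integral_add i1 i2, integral_const_mul,
        integral_const_mul, K0, ← hJ, quad hp h2 h4]
    refine Eq.trans ?_ (integral_div _ _).symm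
    rw [e3, hJ2, hδ]
    have h5 : r ^ 2 = 1 - c ^ 2 := by linarith
    rw [h5]
    field_simp
    ring
  -- the tangential weight
  have hkt : (9 + 45 * c + 43 * c ^ 2 + 31 * c ^ 3) / (16 * (1 + c) ^ 4) ≤ kt 1 r := by
    unfold kt
    rw [show ((1 : ℕ) : ℝ) = 1 by norm_num, div_one]
    have e1 : ∀ θ : Sph 2, (((3 * δ - 1) + (1 - 3 * δ + r ^ 2) * (θ : E 2) 0 ^ 2 +
        (-r ^ 2) * (θ : E 2) 0 ^ 4) +
        (3 * c * δ) * ((1 - (θ : E 2) 0 ^ 2) * ((√(1 - (r * (θ : E 2) 0) ^ 2))⁻¹) ^ 2) -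
        c ^ 3 * ((1 - (θ : E 2) 0 ^ 2) * ((√(1 - (r * (θ : E 2) 0) ^ 2))⁻¹) ^ 4)) /
          (2 * (1 + c) ^ 3) ≤
        (1 - (θ : E 2) 0 ^ 2) * (√(1 - (r * (θ : E 2) 0) ^ 2))⁻¹ := by
      intro θ
      have h5 : 0 ≤ 1 - (θ : E 2) 0 ^ 2 := by linarith [x_le θ]
      have e2 := mul_le_mul_of_nonneg_left (pw (Real.sqrt_pos.2 (hu θ)) hc0) h5
      refine le_trans (le_of_eq ?_) e2
      rw [Real.sq_sqrt (hu θ).le, ← hδ]
      ring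
    have hx1 : Continuous fun θ : Sph 2 => 1 - (θ : E 2) 0 ^ 2 := by fun_prop
    have i1 : Integrable (fun θ : Sph 2 => (3 * δ - 1) + (1 - 3 * δ + r ^ 2) * (θ : E 2) 0 ^ 2 +
      (-r ^ 2) * (θ : E 2) 0 ^ 4) (sg 2) := cint hp (by fun_prop)
    have i2 : Integrable (fun θ : Sph 2 => (3 * c * δ) * ((1 - (θ : E 2) 0 ^ 2) *
      ((√(1 - (r * (θ : E 2) 0) ^ 2))⁻¹) ^ 2)) (sg 2) :=
      (cint hp (hx1.mul (hcs.pow 2))).const_mul _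
    have i3 : Integrable (fun θ : Sph 2 => c ^ 3 * ((1 - (θ : E 2) 0 ^ 2) *
      ((√(1 - (r * (θ : E 2) 0) ^ 2))⁻¹) ^ 4)) (sg 2) :=
      (cint hp (hx1.mul (hcs.pow 4))).const_mul _
    have i12 : Integrable (fun θ : Sph 2 => ((3 * δ - 1) + (1 - 3 * δ + r ^ 2) *
      (θ : E 2) 0 ^ 2 + (-r ^ 2) * (θ : E 2) 0 ^ 4) + (3 * c * δ) * ((1 - (θ : E 2) 0 ^ 2) *
      ((√(1 - (r * (θ : E 2) 0) ^ 2))⁻¹) ^ 2)) (sg 2) := i1.add i2
    have i123 : Integrable (fun θ : Sph 2 => (((3 * δ - 1) + (1 - 3 * δ + r ^ 2) *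
      (θ : E 2) 0 ^ 2 + (-r ^ 2) * (θ : E 2) 0 ^ 4) + (3 * c * δ) * ((1 - (θ : E 2) 0 ^ 2) *
      ((√(1 - (r * (θ : E 2) 0) ^ 2))⁻¹) ^ 2) -
        c ^ 3 * ((1 - (θ : E 2) 0 ^ 2) * ((√(1 - (r * (θ : E 2) 0) ^ 2))⁻¹) ^ 4)) /
          (2 * (1 + c) ^ 3)) (sg 2) := (i12.sub i3).div_const _
    refine le_trans (le_of_eq ?_) (integral_mono i123 (cint hp (hx1.mul hcs)) e1)
    have e3 : ∫ θ : Sph 2, (((3 * δ - 1) + (1 - 3 * δ + r ^ 2) * (θ : E 2) 0 ^ 2 +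
        (-r ^ 2) * (θ : E 2) 0 ^ 4) +
        (3 * c * δ) * ((1 - (θ : E 2) 0 ^ 2) * ((√(1 - (r * (θ : E 2) 0) ^ 2))⁻¹) ^ 2) -
        c ^ 3 * ((1 - (θ : E 2) 0 ^ 2) * ((√(1 - (r * (θ : E 2) 0) ^ 2))⁻¹) ^ 4)) ∂(sg 2) =
        ((3 * δ - 1) + (1 - 3 * δ + r ^ 2) / 2 + 3 * (-r ^ 2) / 8) + 3 * c * δ * (1 / (1 + c)) -
          c ^ 3 * (1 / (2 * c)) := by
      rw [integral_sub i12 i3, integral_add i1 i2, integral_const_mul,
        integral_const_mul, K1, hJ3, quad hp h2 h4]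
    refine Eq.trans ?_ (integral_div _ _).symm
    rw [e3, hδ]
    have h5 : r ^ 2 = 1 - c ^ 2 := by linarith
    rw [h5]
    field_simp
    ring
  -- the condition
  refine hX 1 le_rfl r hr0 hr1 ?_
  rw [← hc, hAr, hAt]
  have hkr2 : ((31 + 43 * c + 45 * c ^ 2 + 9 * c ^ 3) / (16 * (1 + c) ^ 4)) ^ 2 ≤ kr 1 r ^ 2 :=
    pow_le_pow_left₀ (by positivity) hkr 2
  have hkt2 : ((9 + 45 * c + 43 * c ^ 2 + 31 * c ^ 3) / (16 * (1 + c) ^ 4)) ^ 2 ≤ kt 1 r ^ 2 :=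
    pow_le_pow_left₀ (by positivity) hkt 2
  have n1 := num hca hc1
  have n2 : 1 < c ^ 3 * (31 + 43 * c + 45 * c ^ 2 + 9 * c ^ 3) ^ 2 /
      (16 * (1 + c) ^ 8 * (1 + 3 * c ^ 2)) +
      c * (9 + 45 * c + 43 * c ^ 2 + 31 * c ^ 3) ^ 2 / (16 * (1 + c) ^ 8 * (3 + c ^ 2)) := by
    rw [div_add_div _ _ (by positivity) (by positivity), lt_div_iff₀ (by positivity), one_mul]
    have h8 : 0 < 16 * (1 + c) ^ 8 := by positivity
    have h9 := mul_lt_mul_of_pos_left n1 h8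
    calc 16 * (1 + c) ^ 8 * (1 + 3 * c ^ 2) * (16 * (1 + c) ^ 8 * (3 + c ^ 2))
        = 16 * (1 + c) ^ 8 * (16 * (1 + c) ^ 8 * ((1 + 3 * c ^ 2) * (3 + c ^ 2))) := by ring
      _ < _ := h9
      _ = _ := by ring
  have n3 : c ^ 3 * (31 + 43 * c + 45 * c ^ 2 + 9 * c ^ 3) ^ 2 /
      (16 * (1 + c) ^ 8 * (1 + 3 * c ^ 2)) =
      2 * c ^ 3 * ((31 + 43 * c + 45 * c ^ 2 + 9 * c ^ 3) / (16 * (1 + c) ^ 4)) ^ 2 /
        ((1 + 3 * c ^ 2) / 8) := by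
    field_simp
    ring
  have n4 : c * (9 + 45 * c + 43 * c ^ 2 + 31 * c ^ 3) ^ 2 / (16 * (1 + c) ^ 8 * (3 + c ^ 2)) =
      2 * c * ((9 + 45 * c + 43 * c ^ 2 + 31 * c ^ 3) / (16 * (1 + c) ^ 4)) ^ 2 /
        ((3 + c ^ 2) / 8) := by
    field_simp
    ring
  rw [n3, n4] at n2
  have n5 : 2 * c ^ 3 * ((31 + 43 * c + 45 * c ^ 2 + 9 * c ^ 3) / (16 * (1 + c) ^ 4)) ^ 2 /
      ((1 + 3 * c ^ 2) / 8) ≤ 2 * c ^ 3 * kr 1 r ^ 2 / ((1 + 3 * c ^ 2) / 8) :=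
    div_le_div_of_nonneg_right (mul_le_mul_of_nonneg_left hkr2 (by positivity)) (by positivity)
  have n6 : 2 * c * ((9 + 45 * c + 43 * c ^ 2 + 31 * c ^ 3) / (16 * (1 + c) ^ 4)) ^ 2 /
      ((3 + c ^ 2) / 8) ≤ 2 * c * kt 1 r ^ 2 / ((3 + c ^ 2) / 8) :=
    div_le_div_of_nonneg_right (mul_le_mul_of_nonneg_left hkt2 (by positivity)) (by positivity)
  have n7 : ((1 : ℕ) : ℝ) = 1 := by norm_num
  rw [n7]
  have n8 : (1 + 1 : ℝ) = 2 := by norm_num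
  rw [n8, one_mul]
  linarith

end Pool.Agent.H780.R2.GA
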