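import Pool.Agent.H780.RG.Ident
import Pool.Agent.H780.R2.Eqv

/-!
# The functions of the family in the case of equality
-/

set_option autoImplicit false

open MeasureTheory Metric Set Filter Topology InnerProductGeometry Matrix

namespace Pool.Agent.H780.R2.IDENT

open Pool.Agent.H241R3.FV Pool.Agent.N526.CP Pool.Agent.N979.CP Pool.Agent.H780.NV
open Pool.Agent.H780.RG Pool.Agent.H780.RG.EQV Pool.Agent.H780.RG.IDENT

/-- the functions of the family in the case of equality -/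
theorem ident {d : ℕ} (hd1 : 1 ≤ d) {s : ℝ} (hE : CB d s) (hPATH : S_PATH) (hLC : S_LC)
    (hNULT : S_NULT) (hGood : Good2 d s) {M : Type} [MetricSpace M] [ProperSpace M] (hgeo : Geod M)
    {bd : Sph (d + 1) → M} {r : Sph (d + 1) → ℝ} (S : NFill (d + 1) M bd (near bd r))
    {B : ℝ} (hr : ∀ x, r x ≤ B)
    (F : E (d + 1) → E (d + 1)) (L : NNReal) (hFL : LipschitzOnWith L F (closedBall 0 1))
    (hFs : ∀ y ∈ closedBall (0 : E (d + 1)) 1, ‖F y‖ ≤ s)
    {g : Sph (d + 1) → M → ℝ} (hg : FamB bd (hgt bd r) s F g)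
    (hV0 : 0 ≤ ∫ y in ball (0 : E (d + 1)) 1, (fderiv ℝ F y).det * (√(1 - ‖F y‖ ^ 2))⁻¹)
    (hV : S.vol ≤ ENNReal.ofReal
      (∫ y in ball (0 : E (d + 1)) 1, (fderiv ℝ F y).det * (√(1 - ‖F y‖ ^ 2))⁻¹)) :
    (∀ i, ∀ᵐ p ∂(volume : Measure (E (d + 1))), p ∈ (S.chart i).D →
      ∃ L : E (d + 1) →L[ℝ] E (d + 1), HasFDerivAt (Xf g ∘ (S.chart i).map) L p ∧
        |L.det| * (√(1 - ‖Xf g ((S.chart i).map p)‖ ^ 2))⁻¹ ≤ √((S.chart i).G p).det) ∧
    ∀ θ q, g θ q = Real.arcsin (inner ℝ (Xf g q) (θ : E (d + 1))) := by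
  have hs0 : 0 < s := hGood.1
  have hs1 : s < 1 := hGood.2.1
  have hh : Hgt (near bd r) (hgt bd r) := isHgt hr (isCompact_range (bd_cont S)).isBounded
  obtain ⟨e1, e2⟩ := R2.EQV.eqv hd1 hE hGood S hh F L hFL hFs hg hV0 hV
  refine ⟨e1, ?_⟩
  obtain ⟨⟨K, hK, hu⟩, hc, hb⟩ := uf_lip hd1 hs0 hs1 hg fun x =>
    hFs x (sphere_subset_closedBall x.2)
  have h1 : ∀ᵐ θ ∂(sg (d + 1)), ∀ i, ∀ᵐ p ∂(volume : Measure (E (d + 1))), p ∈ (S.chart i).D →
      HasFDerivAt (fun y => uf g θ ((S.chart i).map y)) (0 : E (d + 1) →L[ℝ] ℝ) p :=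
    eventually_all.2 fun i => swap hd1 (S.chart i) (uf g) hK hu hc (e2 i)
  have h2 : ∀ᵐ θ ∂(sg (d + 1)), θ ∈ {θ : Sph (d + 1) | ∀ q ∈ near bd r, uf g θ q = 0} := by
    filter_upwards [h1] with θ hθ
    have h3 := loc_const hLC hNULT S (uf g θ) hK (hu θ) hθ
    have hcu : Continuous (uf g θ) := by
      have : LipschitzWith (Real.toNNReal K) (uf g θ) := by
        refine LipschitzWith.of_dist_le_mul fun q q' => ?_
        rw [Real.dist_eq, Real.coe_toNNReal _ hK]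
        exact hu θ q q'
      exact this.continuous
    exact hPATH M hgeo (d + 1) bd r (uf g θ) hcu (hb θ) h3
  have hcl : IsClosed {θ : Sph (d + 1) | ∀ q ∈ near bd r, uf g θ q = 0} := by
    have e : {θ : Sph (d + 1) | ∀ q ∈ near bd r, uf g θ q = 0} =
        ⋂ q ∈ near bd r, {θ : Sph (d + 1) | uf g θ q = 0} := by
      ext θ
      simp
    rw [e]
    exact isClosed_biInter fun q _ => isClosed_eq (hc q) continuous_const
  have h3 := all_of_ae hcl h2
  intro θ q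
  by_cases hq : q ∈ near bd r
  · have h4 := h3 θ q hq
    unfold uf ip at h4
    linarith
  · have h4 : hgt bd r q = 0 :=
      le_antisymm (not_lt.1 fun h5 => hq ((hh.pos q).1 h5)) (hh.nonneg q)
    have h5 : ∀ θ, g θ q = 0 := fun θ => by
      have := hg.le θ q
      rw [h4] at this
      exact abs_nonpos_iff.1 this
    have h6 : Xf g q = 0 := by
      unfold Xf
      simp only [h5, zero_smul, integral_zero]
      exact Ri_zero hd1
    rw [h5, h6, inner_zero_left, Real.arcsin_zero]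

end Pool.Agent.H780.R2.IDENT
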