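import Pool.Agent.H780.R2.Stm

/-!
# R2/KEQ: the case of equality in the key matrix inequality, two by two matrices
-/

set_option autoImplicit false

open Matrix

namespace Pool.Agent.H780.R2.KEQ

/-- two by two matrices with entries `a b; c d` and `x y; z w` -/
theorem key {a b c d x y z w p q σ : ℝ} (hp : 0 < p) (hq : 0 < q) (hpq : p + q < 1)
    (h : a ^ 2 + b ^ 2 + (1 - p) / p * (x ^ 2 + y ^ 2) +
      (c ^ 2 + d ^ 2 + (1 - q) / q * (z ^ 2 + w ^ 2)) ≤ 2) (hσ : σ ^ 2 = 1)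
    (he : a * d - b * c - (x * w - y * z) = σ) :
    x = 0 ∧ y = 0 ∧ z = 0 ∧ w = 0 ∧ a ^ 2 + b ^ 2 = 1 ∧ c ^ 2 + d ^ 2 = 1 ∧ a * c + b * d = 0 := by
  obtain ⟨P, hP⟩ : ∃ P, P = (1 - p) / p := ⟨_, rfl⟩
  obtain ⟨Q, hQ⟩ : ∃ Q, Q = (1 - q) / q := ⟨_, rfl⟩
  have hP0 : 0 < P := by rw [hP]; exact div_pos (by linarith) hp
  have hQ0 : 0 < Q := by rw [hQ]; exact div_pos (by linarith) hq
  have hPQ : 1 < P * Q := by
    rw [hP, hQ, div_mul_div_comm, one_lt_div (by positivity)]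
    have : (1 - p) * (1 - q) - p * q = 1 - (p + q) := by ring
    linarith
  rw [← hP, ← hQ] at h
  have hs : σ = 1 ∨ σ = -1 := by
    have : (σ - 1) * (σ + 1) = 0 := by linear_combination hσ
    rcases mul_eq_zero.1 this with h1 | h1
    · left; linarith
    · right; linarith
  -- the bound for the second matrix
  have hQP : P⁻¹ < Q := by
    rw [inv_lt_iff_one_lt_mul₀ hP0]
    linarith
  have hPi : 0 < P⁻¹ := inv_pos.2 hP0
  have hPP : P * P⁻¹ = 1 := mul_inv_cancel₀ hP0.ne'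
  have key1 : ∀ t : ℝ, t ^ 2 = 1 → 2 * t * (x * w - y * z) ≤ P * (x ^ 2 + y ^ 2) +
      P⁻¹ * (z ^ 2 + w ^ 2) := by
    intro t ht
    have e : P * (x ^ 2 + y ^ 2) + P⁻¹ * (z ^ 2 + w ^ 2) - 2 * t * (x * w - y * z) =
        P⁻¹ * ((P * x - t * w) ^ 2 + (P * y + t * z) ^ 2) := by
      have : P⁻¹ * ((P * x - t * w) ^ 2 + (P * y + t * z) ^ 2) =
          (P * P⁻¹) * P * (x ^ 2 + y ^ 2) - 2 * t * (P * P⁻¹) * (x * w - y * z) +
          P⁻¹ * t ^ 2 * (z ^ 2 + w ^ 2) := by ring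
      rw [this, hPP, ht]
      ring
    have : 0 ≤ P⁻¹ * ((P * x - t * w) ^ 2 + (P * y + t * z) ^ 2) := by positivity
    linarith
  have key2 : ∀ t : ℝ, t ^ 2 = 1 → a ^ 2 + b ^ 2 + (c ^ 2 + d ^ 2) - 2 * t * (a * d - b * c) =
      (a - t * d) ^ 2 + (b + t * c) ^ 2 := by
    intro t ht
    linear_combination (-(c ^ 2) - d ^ 2) * ht
  have ht : σ ^ 2 = 1 := hσ
  have h1 := key2 σ ht
  have h2 := key1 (-σ) (by rw [neg_sq]; exact ht)
  have h3 : 2 * σ * (a * d - b * c) - 2 * σ * (x * w - y * z) = 2 := by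
    have : 2 * σ * (a * d - b * c) - 2 * σ * (x * w - y * z) = 2 * σ * σ := by
      rw [← he]; ring
    have h' : 2 * σ * σ = 2 * σ ^ 2 := by ring
    rw [this, h', ht]
    norm_num
  have h4 : 0 ≤ (a - σ * d) ^ 2 + (b + σ * c) ^ 2 := by positivity
  have h5 : (Q - P⁻¹) * (z ^ 2 + w ^ 2) + ((a - σ * d) ^ 2 + (b + σ * c) ^ 2) ≤ 0 := by
    have e1 : (Q - P⁻¹) * (z ^ 2 + w ^ 2) = Q * (z ^ 2 + w ^ 2) - P⁻¹ * (z ^ 2 + w ^ 2) := by
      ring
    have e2 : 2 * -σ * (x * w - y * z) = -(2 * σ * (x * w - y * z)) := by ring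
    rw [e2] at h2
    rw [e1, ← h1]
    linarith
  have h6 : 0 ≤ (Q - P⁻¹) * (z ^ 2 + w ^ 2) := mul_nonneg (by linarith) (by positivity)
  have h7 : (Q - P⁻¹) * (z ^ 2 + w ^ 2) = 0 := by linarith
  have h8 : z ^ 2 + w ^ 2 = 0 := by
    rcases mul_eq_zero.1 h7 with h | h
    · linarith
    · exact h
  obtain ⟨hz', hw'⟩ := (add_eq_zero_iff_of_nonneg (sq_nonneg z) (sq_nonneg w)).1 h8
  have hz : z = 0 := pow_eq_zero_iff two_ne_zero |>.1 hz'
  have hw : w = 0 := pow_eq_zero_iff two_ne_zero |>.1 hw'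
  have h9 : (a - σ * d) ^ 2 + (b + σ * c) ^ 2 = 0 := by linarith
  obtain ⟨ha', hb'⟩ := (add_eq_zero_iff_of_nonneg (sq_nonneg (a - σ * d))
    (sq_nonneg (b + σ * c))).1 h9
  have ha : a = σ * d := sub_eq_zero.1 (pow_eq_zero_iff two_ne_zero |>.1 ha')
  have hb : b = -(σ * c) := eq_neg_of_add_eq_zero_left (pow_eq_zero_iff two_ne_zero |>.1 hb')
  subst hz hw
  have h10 : σ * (a * d - b * c) = 1 := by
    have e1 : 2 * σ * (x * 0 - y * 0) = 0 := by ring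
    rw [e1] at h3
    linarith
  have h11 : c ^ 2 + d ^ 2 = 1 := by
    rw [ha, hb] at h10
    have : σ * (σ * d * d - -(σ * c) * c) = σ ^ 2 * (c ^ 2 + d ^ 2) := by ring
    rw [this, ht, one_mul] at h10
    exact h10
  have h12 : a ^ 2 + b ^ 2 = 1 := by
    rw [ha, hb]
    have : (σ * d) ^ 2 + (-(σ * c)) ^ 2 = σ ^ 2 * (c ^ 2 + d ^ 2) := by ring
    rw [this, ht, one_mul, h11]
  have h13 : P * (x ^ 2 + y ^ 2) ≤ 0 := by
    have e1 : Q * ((0 : ℝ) ^ 2 + 0 ^ 2) = 0 := by ring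
    rw [e1] at h
    linarith
  have h14 : x ^ 2 + y ^ 2 ≤ 0 := by
    by_contra hc
    have : 0 < P * (x ^ 2 + y ^ 2) := mul_pos hP0 (not_le.1 hc)
    linarith
  obtain ⟨hx', hy'⟩ := (add_eq_zero_iff_of_nonneg (sq_nonneg x) (sq_nonneg y)).1
    (le_antisymm h14 (by positivity))
  refine ⟨pow_eq_zero_iff two_ne_zero |>.1 hx', pow_eq_zero_iff two_ne_zero |>.1 hy', rfl, rfl,
    h12, h11, ?_⟩
  rw [ha, hb]
  ring

theorem main : S_KEQs := by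
  intro d hd B D p σ hp hsum hle hσ he _
  subst hd
  have h1 := hp 0
  have h2 := hp 1
  rw [Fin.sum_univ_two] at hsum
  have he' : B 0 0 * B 1 1 - B 0 1 * B 1 0 - (D 0 0 * D 1 1 - D 0 1 * D 1 0) = σ := by
    rw [← he, Matrix.adjugate_fin_two, Matrix.trace_fin_two, Matrix.det_fin_two]
    simp [Matrix.mul_apply, Fin.sum_univ_two]
    ring
  have hle' : B 0 0 ^ 2 + B 0 1 ^ 2 + (1 - p 0) / p 0 * (D 0 0 ^ 2 + D 0 1 ^ 2) +
      (B 1 0 ^ 2 + B 1 1 ^ 2 + (1 - p 1) / p 1 * (D 1 0 ^ 2 + D 1 1 ^ 2)) ≤ 2 := by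
    refine le_trans (le_of_eq ?_) (hle.trans (le_of_eq ?_))
    · rw [Fin.sum_univ_two, Fin.sum_univ_two, Fin.sum_univ_two, Fin.sum_univ_two,
        Fin.sum_univ_two]
    · norm_num
  obtain ⟨k1, k2, k3, k4, k5, k6, k7⟩ := key h1 h2 hsum hle' hσ he'
  have hD : D = 0 := by
    ext i j
    fin_cases i <;> fin_cases j <;> simp [k1, k2, k3, k4]
  refine ⟨?_, fun _ => hD⟩
  rw [hD, add_zero]
  have e : ∀ i j : Fin (1 + 1), (B * Bᵀ) i j = B i 0 * B j 0 + B i 1 * B j 1 := by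
    intro i j
    rw [Matrix.mul_apply, Fin.sum_univ_two]
    rfl
  refine Matrix.ext ?_
  refine Fin.forall_fin_two.2 ⟨Fin.forall_fin_two.2 ⟨?_, ?_⟩, Fin.forall_fin_two.2 ⟨?_, ?_⟩⟩
  · rw [e, Matrix.one_apply_eq]
    linarith
  · rw [e, Matrix.one_apply_ne (by decide)]
    linarith
  · rw [e, Matrix.one_apply_ne (by decide)]
    linarith
  · rw [e, Matrix.one_apply_eq]
    linarith

end Pool.Agent.H780.R2.KEQ
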