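import Pool.Agent.H780.RG.Fin
import Pool.Agent.H780.RG.RIGI
import Pool.Agent.H780.R2.Ident
import Pool.Agent.H780.R2.KEQ
import Pool.Agent.H780.R2.ABSE
import Pool.Agent.H780.R2.COME
import Pool.Agent.H780.R2.COMBE
import Pool.Agent.H780.R2.EIG2
import Pool.Agent.H780.R2.GX
import Pool.Agent.H780.R2.GA

/-!
# Rigidity of convex regions, dimension two: assembly
-/

set_option autoImplicit false

open MeasureTheory Metric Set Filter Topology InnerProductGeometry Matrix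

namespace Pool.Agent.H780.R2.Fin

open Pool.Agent.H241R3.FV Pool.Agent.N526.CP Pool.Agent.N979.CP Pool.Agent.H780.NV
open Pool.Agent.H780.RG Pool.Agent.H780.RG.EQV Pool.Agent.H780.RG.IDENT Pool.Agent.H780.RG.Fin

/-- the rigidity theorem, `n = d + 1 ≥ 2` -/
theorem rigid {d : ℕ} (hd1 : 1 ≤ d) {s : ℝ} (hE : CB d s) (hGood : Good2 d s) {M : Type}
    [MetricSpace M] [ProperSpace M] (hgeo : Geod M)
    {bd : Sph (d + 1) → M} {r : Sph (d + 1) → ℝ} (S : NFill (d + 1) M bd (near bd r))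
    {B : ℝ} (hr : ∀ x, r x ≤ B)
    (F : E (d + 1) → E (d + 1)) (L : NNReal) (hFL : LipschitzOnWith L F (closedBall 0 1))
    (hFs : ∀ y ∈ closedBall (0 : E (d + 1)) 1, ‖F y‖ ≤ s)
    (hbd : ∀ x y : Sph (d + 1), hdist (F x) (F y) ≤ dist (bd x) (bd y))
    (hFh : ∀ x : Sph (d + 1), Real.arcsin ‖F x‖ ≤ r x) (hF : CReg F)
    (hdet : ∀ᵐ y ∂(volume.restrict (ball (0 : E (d + 1)) 1)), 0 ≤ (fderiv ℝ F y).det)
    (hV : S.vol ≤ ENNReal.ofReal (∫ x in F '' ball 0 1, (√(1 - ‖x‖ ^ 2))⁻¹)) :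
    ∃ Φ : E (d + 1) → M, (∀ y ∈ F '' closedBall 0 1, ∀ z ∈ F '' closedBall 0 1,
        dist (Φ y) (Φ z) = hdist y z) ∧ (∀ x : Sph (d + 1), Φ (F x) = bd x) ∧
      near bd r ⊆ Φ '' (F '' closedBall 0 1) ∧
      Φ '' (F '' closedBall 0 1 \ {0}) ⊆ near bd r := by
  have hs0 : 0 < s := hGood.1
  have hs1 : s < 1 := hGood.2.1
  have hbc := bd_cont S
  have hh : Hgt (near bd r) (hgt bd r) := isHgt hr (isCompact_range hbc).isBounded
  have hFx : ∀ x : Sph (d + 1), ‖F x‖ ≤ s := fun x => hFs x (sphere_subset_closedBall x.2)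
  have hFh' : ∀ x : Sph (d + 1), Real.arcsin ‖F x‖ ≤ hgt bd r (bd x) := fun x => by
    have := le_hgt (bd := bd) hr (bd x) x
    rw [dist_self, sub_zero] at this
    exact (hFh x).trans this
  obtain ⟨g, hg, hINF⟩ := EXTI.fam_exists' hd1 bd hbc hs0 hs1 F hFL.continuousOn hFx hbd
    (hgt bd r) hh.nonneg hh.lip hFh'
  -- the volume
  have e : ∫ y in ball (0 : E (d + 1)) 1, (fderiv ℝ F y).det * (√(1 - ‖F y‖ ^ 2))⁻¹ =
      ∫ x in F '' ball 0 1, (√(1 - ‖x‖ ^ 2))⁻¹ :=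
    INJF2.t d F L hFL (hF.inj.mono ball_subset_closedBall) hdet
  have hV0 : 0 ≤ ∫ y in ball (0 : E (d + 1)) 1, (fderiv ℝ F y).det * (√(1 - ‖F y‖ ^ 2))⁻¹ := by
    refine integral_nonneg_of_ae ?_
    filter_upwards [hdet] with y hy
    exact mul_nonneg hy (by positivity)
  have hV1 := hV
  rw [← e] at hV1
  obtain ⟨i1, i2⟩ := R2.IDENT.ident hd1 hE PATH.main LC.main NULT.main hGood hgeo S hr F L hFL hFs hg
    hV0 hV1
  obtain ⟨x1, x2, x3⟩ := xf_facts hd1 hs0 hs1 hg hFx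
  have hrig : Rig bd {q | 0 < hgt bd r q} F (Xf g) :=
    RIGI.main SPA.main SPC.main (d + 1) (by omega) M bd (hgt bd r) F g (Xf g) s hs1 x1 hbc hFL.continuousOn
      hg.lip hg.le hINF i2 x3
  have hA : {q | 0 < hgt bd r q} = near bd r := by
    ext q
    exact hh.pos q
  rw [hA] at hrig
  have hbA : ∀ x, bd x ∈ near bd r := S.bd_mem
  obtain ⟨j1, j2⟩ := isoa (d + 1) (by omega) M hgeo bd (near bd r) F (Xf g) hrig hF hbA
    (INJ.bd_closure S)
  have hlipX : LipschitzWith (Real.toNNReal (d + 1)) (Xf g) := by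
    refine LipschitzWith.of_dist_le_mul fun q q' => ?_
    rw [dist_eq_norm, Real.coe_toNNReal _ (by positivity)]
    exact x2 q q'
  have hinj : InjOn (Xf g) (near bd r) :=
    INJ.inj NULT.main (AREA.main UDER.t) isOpen_near S (Xf g) s _ hs1 x1 hlipX i1 F hrig hF hV j2
  exact isob (d + 1) (by omega) M bd (near bd r) F (Xf g) hrig hF hbA
    (fun q hq => (j1 q hq).1) j2 hinj

theorem combes : S_COMBEs := R2.COMBE.main (R2.COME.main (R2.ABSE.main R2.KEQ.main)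
  Pool.Agent.N979.CP.Fin.detv Pool.Agent.N979.CP.Fin.gram Pool.Agent.N979.CP.Fin.lz
  (R2.EIG2.main Pool.Agent.N979.CP.Fin.sph) Pool.Agent.N979.CP.Fin.sph)

/-- dimension two, radius at most 71.2 degrees -/
theorem good2s_two {s : ℝ} (h0 : 0 < s) (hs : s ≤ 947 / 1000) : Good2s 1 s :=
  R2.GA.main Pool.Agent.N979.CP.Fin.sph Pool.Agent.N979.CP.Fin.gram
    (R2.GX.main Pool.Agent.N979.CP.Fin.sph Pool.Agent.N979.CP.Fin.gram) s h0 hs

/-- dimension two -/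
theorem cb_two {s : ℝ} (h0 : 0 < s) (hs : s ≤ 947 / 1000) : CB 1 s :=
  combes 1 rfl s (good2s_two h0 hs)

end Pool.Agent.H780.R2.Fin
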